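import Pool.Agent.R484.NCb
import Pool.Agent.Run7.h43.NC.Defs

/-!
# Filtrations of one part of the realisation: definitions
-/

set_option autoImplicit false

open CategoryTheory Limits MonoidalCategory

namespace Pool.Agent.Run7.h546.FP

open Pool.Agent.Y112.SR Pool.Agent.Y112.KD Pool.Agent.R484.NC Run7.h43.NC

universe v u w

variable {C : Type u} [Category.{v} C] [Preadditive C] [Linear ℚ C] [MonoidalCategory C]
  [MonoidalPreadditive C] [MonoidalLinear ℚ C] [SymmetricCategory C] [RightRigidCategory C]
  {K : Type w} [Field K]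

/-- The class `x` is in the part of sign `ε` of the realisation of `M`. -/
def InPart (R : SuperRealisation C K) (ε : K) (M : C) (x : R.H.obj M) : Prop :=
  x ∈ signPart R ε M

/-- The morphism `f` kills the class `x`. -/
def Kills (R : SuperRealisation C K) (M N : C) (f : M ⟶ N) (x : R.H.obj M) : Prop :=
  opm R f x = 0

/-- The pair `(X, X')` is **admissible** for the sign `ε`: if `f : X → X'` is a morphism with
`Tr(δ f) = 0` for all `δ : X' → X` which kill the part of sign `-ε` of `R(X')`, then `f` kills the part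
of sign `ε` of `R(X)`. This is a one-sided form of the conjecture that numerically trivial morphisms are
homologically trivial. -/
def Admissible (hU : UnitQ C) (R : SuperRealisation C K) (ε : K) (X X' : C) : Prop :=
  ∀ f : X ⟶ X', (∀ δ : X' ⟶ X, (∀ x, InPart R (-ε) X' x → Kills R X' X δ x) →
    ctr hU (f ≫ δ) = 0) → ∀ x, InPart R ε X x → Kills R X X' f x

/-- The span of the images of all morphisms from objects in `𝒮` to `M`. -/
noncomputable def generated (R : SuperRealisation C K) (𝒮 : Set C) (M : C) :
    Submodule K (R.H.obj M) :=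
  Submodule.span K {y | ∃ X ∈ 𝒮, ∃ (α : X ⟶ M) (x : R.H.obj X), y = opm R α x}

/-- The class `y` is killed by all morphisms from `M` to objects in `𝒮'`. -/
def KilledBy (R : SuperRealisation C K) (𝒮' : Set C) (M : C) (y : R.H.obj M) : Prop :=
  ∀ X' ∈ 𝒮', ∀ β : M ⟶ X', Kills R M X' β y

/-- `F` is a filtration, with `n` steps, of the part of sign `ε` of `R(M)` by subspaces which are
stable under all endomorphisms of `M`, such that every graded piece `F (t + 1) / F t` is generated by
a set `𝒮` of objects and detected by a set `𝒮'` of objects, where all pairs `(X, X')` with `X` in `𝒮`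
and `X'` in `𝒮'` are admissible. -/
structure IsFiltration (hU : UnitQ C) (R : SuperRealisation C K) (ε : K) (M : C) (n : ℕ)
    (F : ℕ → Submodule K (R.H.obj M)) : Prop where
  bot : F 0 = ⊥
  top : F n = signPart R ε M
  mono : ∀ t < n, F t ≤ F (t + 1)
  stable : ∀ t, ∀ g : M ⟶ M, ∀ x ∈ F t, opm R g x ∈ F t
  step : ∀ t < n, ∃ 𝒮 𝒮' : Set C, (∀ X ∈ 𝒮, ∀ X' ∈ 𝒮', Admissible hU R ε X X') ∧
    F (t + 1) ≤ F t ⊔ generated R 𝒮 M ∧
    ∀ y ∈ F (t + 1), y ∈ generated R 𝒮 M → KilledBy R 𝒮' M y → y ∈ F t

end Pool.Agent.Run7.h546.FP
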