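import Pool.Agent.Run7.h43.NC.Main
import Pool.Agent.Run7.h546.FP.Defs

/-!
# The sign conjecture from a filtration of one part
-/

set_option autoImplicit false

open CategoryTheory Limits MonoidalCategory

namespace Pool.Agent.Run7.h546.FP

open Pool.Agent.Y112.SR Pool.Agent.Y112.KD Pool.Agent.R484.NC Pool.Agent.Y112.SC Run7.h43.NC
open Run7.h43.SD (exists_repr)

universe v u w

variable {C : Type u} [Category.{v} C] [Preadditive C] [Linear ℚ C] [MonoidalCategory C]
  [MonoidalPreadditive C] [MonoidalLinear ℚ C] [SymmetricCategory C] [RightRigidCategory C]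
  {K : Type w} [Field K] {R : SuperRealisation C K} (hU : UnitQ C) {𝒮' 𝒮 : Set C} {ε : K}
  {M N X X' : C}

lemma neg_sq (hε : ε = 1 ∨ ε = -1) : -ε * -ε = 1 := by rcases hε with rfl | rfl <;> norm_num

lemma sq_one (hε : ε = 1 ∨ ε = -1) : ε * ε = 1 := by rcases hε with rfl | rfl <;> norm_num

lemma opm_mem {f : M ⟶ N} {x : R.H.obj M} (hx : x ∈ signPart R ε M) :
    opm R f x ∈ signPart R ε N := by
  rw [mem_signPart] at hx ⊢
  rw [← opm_pr, hx, map_smul]

lemma prj_neg [CharZero K] {x : R.H.obj M} (hx : x ∈ signPart R (-ε) M) (hε : ε * ε = 1) :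
    prj R ε M x = 0 := by
  rw [mem_signPart] at hx
  rw [prj_apply, hx, smul_smul, mul_neg, hε, neg_smul, one_smul, add_neg_cancel, smul_zero]

lemma prj_add [CharZero K] (x : R.H.obj M) : prj R ε M x + prj R (-ε) M x = x := by
  have h2 : (2 : K) ≠ 0 := two_ne_zero
  rw [prj_apply, prj_apply, ← smul_add, neg_smul]
  have : x + ε • pr R M x + (x + -(ε • pr R M x)) = (2 : K) • x := by
    rw [two_smul]; abel
  rw [this, smul_smul, inv_mul_cancel₀ h2, one_smul]

/-- a projector kills the other part -/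
lemma projects_kill (hε : ε = 1 ∨ ε = -1) {P : M ⟶ M} (hP : Projects R ε P) {x : R.H.obj M}
    (hx : x ∈ signPart R (-ε) M) : opm R P x = 0 := by
  have hc := R_charZero R
  rw [projects_iff.1 hP, prj_neg hx (sq_one hε)]

lemma projects_id (hε : ε = 1 ∨ ε = -1) {P : M ⟶ M} (hP : Projects R ε P) {x : R.H.obj M}
    (hx : x ∈ signPart R ε M) : opm R P x = x := by
  have hc := R_charZero R
  rw [projects_iff.1 hP, prj_of_mem (sq_one hε) hx]

/-- **Admissible pairs.** -/
theorem admissible_of (hε : ε = 1 ∨ ε = -1) (h : R.CPlus X ∨ R.CPlus X')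
    (hD : HomNum hU R ε X X') : Admissible hU R ε X X' := by
  intro f hf x hx
  rcases h with h | h
  · obtain ⟨P, hP⟩ := exists_projects (M := X) hε h
    have h1 : NumTriv hU (P ≫ f) := by
      intro δ
      have h2 := hf (δ ≫ P) fun y hy => by
        change opm R (δ ≫ P) y = 0
        rw [opm_comp, projects_kill hε hP (opm_mem hy)]
      rwa [← Category.assoc, ctr_comm R hU, ← Category.assoc] at h2
    have h2 := hD _ h1 x hx
    rwa [opm_comp, projects_id hε hP hx] at h2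
  · obtain ⟨P, hP⟩ := exists_projects (M := X') hε h
    have h1 : NumTriv hU (f ≫ P) := by
      intro δ
      have h2 := hf (P ≫ δ) fun y hy => by
        change opm R (P ≫ δ) y = 0
        rw [opm_comp, projects_kill hε hP hy, map_zero]
      rwa [← Category.assoc] at h2
    have h2 := hD _ h1 x hx
    rwa [opm_comp, projects_id hε hP (opm_mem hx)] at h2

variable (R) in
/-- the compositions `M → X' → X → M` with a map in the middle which kills the part of sign
`-ε` -/
def tk (𝒮' 𝒮 : Set C) (ε : K) (M : C) : Submodule ℚ (M ⟶ M) :=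
  Submodule.span ℚ {f | ∃ X' ∈ 𝒮', ∃ X ∈ 𝒮, ∃ (β : M ⟶ X') (δ : X' ⟶ X) (α : X ⟶ M),
    (∀ x ∈ signPart R (-ε) X', opm R δ x = 0) ∧ f = β ≫ δ ≫ α}

lemma tk_kill {t : M ⟶ M} (ht : t ∈ tk R 𝒮' 𝒮 ε M) {w : R.H.obj M}
    (hw : w ∈ signPart R (-ε) M) : opm R t w = 0 := by
  have hc := R_charZero R
  refine Submodule.span_induction (p := fun t _ => opm R t w = 0) ?_ ?_ ?_ ?_ ht
  · rintro _ ⟨X', hX', X, hX, β, δ, α, hδ, rfl⟩
    rw [opm_comp, opm_comp, hδ _ (opm_mem hw), map_zero]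
  · rw [opm_zero]
  · intro a b _ _ ha hb; rw [opm_add, ha, hb, add_zero]
  · intro c a _ ha; rw [opm_smul, ha, smul_zero]

lemma tk_map (hε : ε = 1 ∨ ε = -1) {t : M ⟶ M} (ht : t ∈ tk R 𝒮' 𝒮 ε M) (w : R.H.obj M) :
    opm R t w ∈ gp R 𝒮 ε M := by
  have hc := R_charZero R
  have hε' := sq_one hε
  rw [← prj_add (ε := ε) w, map_add, tk_kill ht (prj_mem R (neg_sq hε) w), add_zero]
  have hw := prj_mem R hε' w
  refine Submodule.span_induction (p := fun t _ => opm R t (prj R ε M w) ∈ gp R 𝒮 ε M)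
    ?_ ?_ ?_ ?_ ht
  · rintro _ ⟨X', hX', X, hX, β, δ, α, hδ, rfl⟩
    rw [opm_comp, opm_comp]
    exact Submodule.subset_span ⟨X, hX, α, _, opm_mem (opm_mem hw), rfl⟩
  · rw [opm_zero]; exact Submodule.zero_mem _
  · intro a b _ _ ha hb; rw [opm_add]; exact Submodule.add_mem _ ha hb
  · intro c a _ ha; rw [opm_smul]; exact Submodule.smul_mem _ _ ha

lemma tk_killed {t : M ⟶ M} (ht : t ∈ tk R 𝒮' 𝒮 ε M) {w : R.H.obj M}
    (hw : KilledBy R 𝒮' M w) : opm R t w = 0 := by
  have hc := R_charZero R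
  refine Submodule.span_induction (p := fun t _ => opm R t w = 0) ?_ ?_ ?_ ?_ ht
  · rintro _ ⟨X', hX', X, hX, β, δ, α, hδ, rfl⟩
    have h1 : opm R β w = 0 := hw X' hX' β
    rw [opm_comp, opm_comp, h1, map_zero, map_zero]
  · rw [opm_zero]
  · intro a b _ _ ha hb; rw [opm_add, ha, hb, add_zero]
  · intro c a _ ha; rw [opm_smul, ha, smul_zero]

/-- The main lemma. -/
lemma orth (hD : ∀ X ∈ 𝒮, ∀ X' ∈ 𝒮', Admissible hU R ε X X') {x : M ⟶ M}
    (hx : ∀ t ∈ tk R 𝒮' 𝒮 ε M, ctr hU (x ≫ t) = 0) {y : R.H.obj M} (hy : y ∈ gp R 𝒮 ε M) :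
    KilledBy R 𝒮' M (opm R x y) := by
  intro X' hX' β
  change opm R β (opm R x y) = 0
  refine Submodule.span_induction (p := fun y _ => opm R β (opm R x y) = 0) ?_ ?_ ?_ ?_ hy
  · rintro _ ⟨X, hX, α, a, ha, rfl⟩
    have h2 : opm R (α ≫ x ≫ β) a = 0 := by
      refine hD X hX X' hX' (α ≫ x ≫ β) (fun δ hδ => ?_) a ha
      have h3 : (α ≫ x ≫ β) ≫ δ = α ≫ (x ≫ β ≫ δ) := by simp only [Category.assoc]
      rw [h3, ctr_comm R hU]
      have h4 : (x ≫ β ≫ δ) ≫ α = x ≫ (β ≫ δ ≫ α) := by simp only [Category.assoc]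
      rw [h4]
      exact hx _ (Submodule.subset_span ⟨X', hX', X, hX, β, δ, α, hδ, rfl⟩)
    rw [opm_comp, opm_comp] at h2
    exact h2
  · rw [map_zero, map_zero]
  · intro a b _ _ ha hb; rw [map_add, map_add, ha, hb, add_zero]
  · intro c a _ ha; rw [map_smul, map_smul, ha, smul_zero]

/-- endomorphisms which are nilpotent of order three in the realisation have trace zero -/
lemma ctr_eq_zero3 {t : M ⟶ M} (h : ∀ x, opm R t (opm R t (opm R t x)) = 0) : ctr hU t = 0 := by
  have hc := R_charZero R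
  have hfin := R.finite M
  have h1 : op R t ^ 3 = 0 := by
    ext x
    rw [pow_succ, pow_two]
    exact h x
  have hcomm := op_comm R t
  have hcomm' : Commute (op R t) (evp R M - (1 - evp R M)) :=
    hcomm.sub_right ((Commute.one_right _).sub_right hcomm)
  have h2 : IsNilpotent ((evp R M - (1 - evp R M)) * op R t) := by
    refine ⟨3, ?_⟩
    rw [hcomm'.symm.mul_pow, h1, mul_zero]
  have h3 := (LinearMap.isNilpotent_trace_of_isNilpotent h2).eq_zero
  rw [← str_eq, ← ctr_eq R hU] at h3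
  exact_mod_cast h3

/-- **Existence.** -/
theorem exists_unit (hε : ε = 1 ∨ ε = -1)
    (hD : ∀ X ∈ 𝒮, ∀ X' ∈ 𝒮', Admissible hU R ε X X') :
    ∃ e ∈ tk R 𝒮' 𝒮 ε M, ∀ y ∈ gp R 𝒮 ε M, KilledBy R 𝒮' M (opm R e y - y) := by
  have hc := R_charZero R
  obtain ⟨n, f, hf⟩ := exists_coord' R hU M
  set A := tk R 𝒮' 𝒮 ε M with hA
  let T : (M ⟶ M) →ₗ[ℚ] ℚ :=
    { toFun := fun a => ctr hU a
      map_add' := fun a b => ctr_add hU a b
      map_smul' := fun q a => ctr_smul hU q a }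
  let B : A →ₗ[ℚ] A →ₗ[ℚ] ℚ :=
    LinearMap.mk₂ ℚ (fun a b => T ((a : M ⟶ M) ≫ (b : M ⟶ M)))
      (fun a a' b => by rw [Submodule.coe_add, Preadditive.add_comp, map_add])
      (fun q a b => by rw [Submodule.coe_smul, Linear.smul_comp, map_smul])
      (fun a b b' => by rw [Submodule.coe_add, Preadditive.comp_add, map_add])
      (fun q a b => by rw [Submodule.coe_smul, Linear.comp_smul, map_smul])
  have hB : ∀ a b : A, B a b = ctr hU ((a : M ⟶ M) ≫ (b : M ⟶ M)) := fun a b => rfl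
  have hvan : ∀ a : A, B a = 0 → ∀ t ∈ A, ctr hU ((a : M ⟶ M) ≫ t) = 0 := by
    intro a ha t ht
    exact LinearMap.congr_fun ha ⟨t, ht⟩
  obtain ⟨e, he⟩ := exists_repr B (fun a b => by rw [hB, hB, ctr_comm R hU])
    (f ∘ₗ A.subtype) (fun a ha => by
      ext b
      exact hf _ ha _) (T ∘ₗ A.subtype) (fun a ha => by
      have h1 := hvan a ha
      refine ctr_eq_zero3 (R := R) hU fun x => ?_
      exact tk_killed a.2 (orth hU hD h1 (tk_map hε a.2 x)))
  refine ⟨e, e.2, fun y hy => ?_⟩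
  have h3 := orth (x := (e : M ⟶ M) - 𝟙 M) hU hD (fun t ht => ?_) hy
  · rwa [opm_sub, opm_id] at h3
  · have h4 := he ⟨t, ht⟩
    rw [hB] at h4
    rw [Preadditive.sub_comp, Category.id_comp, ctr_sub, sub_eq_zero]
    exact h4

/-- the part of sign `ε` of what is generated -/
lemma mem_gp [CharZero K] (hε : ε * ε = 1) {y : R.H.obj M} (hy : y ∈ signPart R ε M)
    (h : y ∈ generated R 𝒮 M) : y ∈ gp R 𝒮 ε M := by
  have h1 : ∀ z ∈ generated R 𝒮 M, prj R ε M z ∈ gp R 𝒮 ε M := by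
    intro z hz
    refine Submodule.span_induction (p := fun z _ => prj R ε M z ∈ gp R 𝒮 ε M) ?_ ?_ ?_ ?_ hz
    · rintro _ ⟨X, hX, α, x, rfl⟩
      rw [← opm_prj]
      exact Submodule.subset_span ⟨X, hX, α, _, prj_mem R hε x, rfl⟩
    · rw [map_zero]; exact Submodule.zero_mem _
    · intro a b _ _ ha hb; rw [map_add]; exact Submodule.add_mem _ ha hb
    · intro c a _ ha; rw [map_smul]; exact Submodule.smul_mem _ _ ha
  have h2 := h1 y h
  rwa [prj_of_mem hε hy] at h2

lemma gp_le_generated : gp R 𝒮 ε M ≤ generated R 𝒮 M := by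
  refine Submodule.span_mono ?_
  rintro _ ⟨X, hX, α, x, -, rfl⟩
  exact ⟨X, hX, α, x, rfl⟩

lemma IsFiltration.le {n : ℕ} {F : ℕ → Submodule K (R.H.obj M)}
    (hF : IsFiltration hU R ε M n F) {t : ℕ} (ht : t ≤ n) : F t ≤ signPart R ε M := by
  rw [← hF.top]
  exact Nat.decreasingInduction (motive := fun t _ => F t ≤ F n)
    (fun k hk ih => (hF.mono k hk).trans ih) le_rfl ht

/-- descending along the filtration -/
lemma exists_down (hε : ε = 1 ∨ ε = -1) {n : ℕ} {F : ℕ → Submodule K (R.H.obj M)}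
    (hF : IsFiltration hU R ε M n F) {t : ℕ} (ht : t ≤ n) :
    ∃ g : M ⟶ M, (∀ x ∈ signPart R (-ε) M, opm R g x = x) ∧
      ∀ x ∈ signPart R ε M, opm R g x ∈ F t := by
  have hc := R_charZero R
  have hε' := sq_one hε
  refine Nat.decreasingInduction (motive := fun t _ => ∃ g : M ⟶ M,
    (∀ x ∈ signPart R (-ε) M, opm R g x = x) ∧ ∀ x ∈ signPart R ε M, opm R g x ∈ F t)
    ?_ ?_ ht
  · rintro k hk ⟨g, h1, h2⟩
    obtain ⟨𝒮, 𝒮', hD, h3, h4⟩ := hF.step k hk
    obtain ⟨e, he, he'⟩ := exists_unit (M := M) hU hε hD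
    refine ⟨g ≫ (𝟙 M - e), fun x hx => ?_, fun x hx => ?_⟩
    · rw [opm_comp, h1 x hx, opm_sub, opm_id, tk_kill he hx, sub_zero]
    · rw [opm_comp]
      have hk1 := h2 x hx
      obtain ⟨y, hy, v, hv, hyv⟩ := Submodule.mem_sup.1 (h3 hk1)
      rw [← hyv, map_add]
      refine Submodule.add_mem _ (hF.stable k _ y hy) ?_
      have hv1 : v ∈ F (k + 1) := by
        have : v = opm R g x - y := by rw [← hyv]; abel
        rw [this]
        exact Submodule.sub_mem _ hk1 (hF.mono k hk hy)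
      have hv2 : v ∈ signPart R ε M := hF.le hU (by omega) hv1
      have hv3 : v ∈ gp R 𝒮 ε M := mem_gp hε' hv2 hv
      refine h4 _ (hF.stable (k + 1) _ v hv1) ?_ ?_
      · rw [opm_sub, opm_id]
        exact Submodule.sub_mem _ hv (gp_le_generated (tk_map hε he v))
      · intro X' hX' β
        have h5 : opm R β (opm R e v - v) = 0 := he' v hv3 X' hX' β
        change opm R β (opm R (𝟙 M - e) v) = 0
        rw [opm_sub, opm_id, ← neg_sub, map_neg, h5, neg_zero]
  · exact ⟨𝟙 M, fun x _ => opm_id R x, fun x hx => by rw [opm_id, hF.top]; exact hx⟩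

/-- **The sign conjecture from a filtration of one part.** -/
theorem cplus_of_filtration (hε : ε = 1 ∨ ε = -1) {n : ℕ} {F : ℕ → Submodule K (R.H.obj M)}
    (hF : IsFiltration hU R ε M n F) : R.CPlus M := by
  have hc := R_charZero R
  obtain ⟨g, h1, h2⟩ := exists_down hU hε hF (Nat.zero_le n)
  have hε2 : -ε = 1 ∨ -ε = -1 := by
    rcases hε with rfl | rfl
    · exact Or.inr rfl
    · exact Or.inl (neg_neg 1)
  refine cplus_of_projects hε2 (e := g) (projects_iff.2 fun x => ?_)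
  rw [hF.bot] at h2
  conv_lhs => rw [← prj_add (ε := ε) x]
  rw [map_add, h1 _ (prj_mem R (neg_sq hε) x),
    (Submodule.mem_bot K).1 (h2 _ (prj_mem R (sq_one hε) x)), zero_add]

/-- **Two steps.** -/
theorem cplus_of_two (hε : ε = 1 ∨ ε = -1) {𝒮 𝒯 : Set C}
    (hS : ∀ X ∈ 𝒮, Admissible hU R ε X M) (hT : ∀ Z ∈ 𝒯, Admissible hU R ε M Z)
    (h : ∀ y, InPart R ε M y → KilledBy R 𝒯 M y → y ∈ generated R 𝒮 M) : R.CPlus M := by
  let G : Submodule K (R.H.obj M) :=
    { carrier := {y | y ∈ signPart R ε M ∧ KilledBy R 𝒯 M y}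
      add_mem' := fun {a b} ha hb => ⟨Submodule.add_mem _ ha.1 hb.1, fun X hX β => by
        have h1 : opm R β a = 0 := ha.2 X hX β
        have h2 : opm R β b = 0 := hb.2 X hX β
        change opm R β (a + b) = 0
        rw [map_add, h1, h2, add_zero]⟩
      zero_mem' := ⟨Submodule.zero_mem _, fun X _ β => by
        change opm R β 0 = 0
        rw [map_zero]⟩
      smul_mem' := fun c a ha => ⟨Submodule.smul_mem _ _ ha.1, fun X hX β => by
        have h1 : opm R β a = 0 := ha.2 X hX β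
        change opm R β (c • a) = 0
        rw [map_smul, h1, smul_zero]⟩ }
  let F : ℕ → Submodule K (R.H.obj M) := fun t =>
    if t = 0 then ⊥ else if t = 1 then G else signPart R ε M
  refine cplus_of_filtration hU hε (n := 2) (F := F) ⟨rfl, rfl, ?_, ?_, ?_⟩
  · intro t ht
    obtain rfl | rfl : t = 0 ∨ t = 1 := by omega
    · exact bot_le
    · exact fun y hy => hy.1
  · intro t g x hx
    rcases t with _ | _ | t
    · have h0 : x = 0 := (Submodule.mem_bot K).1 hx
      rw [h0, map_zero]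
      exact Submodule.zero_mem _
    · have hx' : x ∈ signPart R ε M ∧ KilledBy R 𝒯 M x := hx
      refine ⟨opm_mem hx'.1, fun X hX β => ?_⟩
      change opm R β (opm R g x) = 0
      rw [← opm_comp]
      exact hx'.2 X hX (g ≫ β)
    · have hx' : x ∈ signPart R ε M := hx
      exact (opm_mem hx' : opm R g x ∈ signPart R ε M)
  · intro t ht
    obtain rfl | rfl : t = 0 ∨ t = 1 := by omega
    · refine ⟨𝒮, {M}, fun X hX X' hX' => ?_, fun y hy => ?_, fun y _ _ hk => ?_⟩
      · rw [Set.mem_singleton_iff.1 hX']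
        exact hS X hX
      · have hy' : y ∈ signPart R ε M ∧ KilledBy R 𝒯 M y := hy
        exact Submodule.mem_sup_right (h y hy'.1 hy'.2)
      · have h1 : opm R (𝟙 M) y = 0 := hk M rfl (𝟙 M)
        rw [opm_id] at h1
        rw [h1]
        exact Submodule.zero_mem _
    · refine ⟨{M}, 𝒯, fun X hX X' hX' => ?_, fun y hy => ?_, fun y hy _ hk => ?_⟩
      · rw [Set.mem_singleton_iff.1 hX]
        exact hT X' hX'
      · exact Submodule.mem_sup_right (Submodule.subset_span ⟨M, rfl, 𝟙 M, y, (opm_id R y).symm⟩)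
      · have hy' : y ∈ signPart R ε M := hy
        exact ⟨hy', hk⟩

/-- **One object.** -/
theorem cplus_iff_admissible (hε : ε = 1 ∨ ε = -1) (hD : HomNum hU R ε M M) :
    R.CPlus M ↔ Admissible hU R ε M M := by
  refine ⟨fun h => admissible_of hU hε (Or.inl h) hD, fun h => ?_⟩
  refine cplus_of_two (𝒮 := {M}) (𝒯 := ∅) hU hε ?_ ?_ ?_
  · rintro _ rfl
    exact h
  · intro Z hZ
    exact absurd hZ (Set.notMem_empty Z)
  · intro y _ _
    exact Submodule.subset_span ⟨M, rfl, 𝟙 M, y, (opm_id R y).symm⟩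

end Pool.Agent.Run7.h546.FP
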